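import Pool.Agent.Lib.MP_d6da6d_an.Defs

namespace Pool.Agent.Lib.MP_d6da6d_an

open MeasureTheory Set
open scoped ENNReal

/-- Real indicator. -/
noncomputable def ind (s : Set ℝ) : ℝ → ℝ := Set.indicator s (fun _ => 1)

theorem ind_of_mem {s : Set ℝ} {x : ℝ} (h : x ∈ s) : ind s x = 1 := by simp [ind, h]
theorem ind_of_notMem {s : Set ℝ} {x : ℝ} (h : x ∉ s) : ind s x = 0 := by simp [ind, h]
theorem ind_nonneg (s : Set ℝ) (x : ℝ) : 0 ≤ ind s x := by
  by_cases h : x ∈ s <;> simp [ind, h]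

/-- The exponential. -/
noncomputable def ex (ξ x : ℝ) : ℂ := Complex.exp (-2 * Real.pi * Complex.I * ξ * x)

theorem continuous_ex (ξ : ℝ) : Continuous (ex ξ) := by
  unfold ex; fun_prop

theorem ind_mul {E : Type*} [NormedAddCommGroup E] [NormedSpace ℝ E] (s : Set ℝ) (f : ℝ → E) :
    (fun x => ind s x • f x) = s.indicator f := by
  funext x
  by_cases h : x ∈ s <;> simp [ind, h]

theorem integrable_ind_smul_Icc {E : Type*} [NormedAddCommGroup E] [NormedSpace ℝ E] (p q : ℝ)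
    {f : ℝ → E} (hf : Continuous f) : Integrable (fun x => ind (Icc p q) x • f x) := by
  rw [ind_mul, integrable_indicator_iff measurableSet_Icc]
  exact hf.continuousOn.integrableOn_Icc

theorem integrable_ind_smul_Ico {E : Type*} [NormedAddCommGroup E] [NormedSpace ℝ E] (p q : ℝ)
    {f : ℝ → E} (hf : Continuous f) : Integrable (fun x => ind (Ico p q) x • f x) := by
  rw [ind_mul, integrable_indicator_iff measurableSet_Ico]
  exact hf.continuousOn.integrableOn_Icc.mono_set Ico_subset_Icc_self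

theorem integral_ind_smul_Icc {E : Type*} [NormedAddCommGroup E] [NormedSpace ℝ E] {p q : ℝ}
    (h : p ≤ q) (f : ℝ → E) : ∫ x, ind (Icc p q) x • f x = ∫ x in p..q, f x := by
  rw [ind_mul, integral_indicator measurableSet_Icc, integral_Icc_eq_integral_Ioc,
    intervalIntegral.integral_of_le h]

theorem integral_ind_smul_Ico {E : Type*} [NormedAddCommGroup E] [NormedSpace ℝ E] {p q : ℝ}
    (h : p ≤ q) (f : ℝ → E) : ∫ x, ind (Ico p q) x • f x = ∫ x in p..q, f x := by
  rw [ind_mul, integral_indicator measurableSet_Ico, integral_Ico_eq_integral_Ioc,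
    intervalIntegral.integral_of_le h]

theorem mul_integral_ex (ξ p q : ℝ) :
    (-2 * Real.pi * Complex.I * ξ) * ∫ x in p..q, ex ξ x = ex ξ q - ex ξ p := by
  by_cases h : (-2 * Real.pi * Complex.I * ξ : ℂ) = 0
  · simp only [ex, h]; simp
  · unfold ex
    rw [integral_exp_mul_complex h, mul_div_cancel₀ _ h]

theorem integral_abs_rpow {α : ℝ} (hα : 0 < α) {p q : ℝ} (hp : 0 ≤ p) (hq : 0 ≤ q) :
    ∫ x in (-p)..q, |x| ^ α = (p ^ (α + 1) + q ^ (α + 1)) / (α + 1) := by
  have hc : Continuous (fun x : ℝ => |x| ^ α) := continuous_abs.rpow_const (fun _ => Or.inr hα.le)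
  have key : ∀ r : ℝ, 0 ≤ r → ∫ x in (0 : ℝ)..r, |x| ^ α = r ^ (α + 1) / (α + 1) := by
    intro r hr
    rw [intervalIntegral.integral_congr (g := fun x => x ^ α)]
    · rw [integral_rpow (Or.inl (by linarith)), Real.zero_rpow (by linarith), sub_zero]
    · intro x hx
      rw [uIcc_of_le hr] at hx
      simp [abs_of_nonneg hx.1]
  rw [← intervalIntegral.integral_add_adjacent_intervals (b := 0) (hc.intervalIntegrable _ _)
    (hc.intervalIntegrable _ _), key q hq]
  have : ∫ x in (-p)..0, |x| ^ α = ∫ x in (0 : ℝ)..p, |x| ^ α := by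
    have := intervalIntegral.integral_comp_neg (a := 0) (b := p) (fun x : ℝ => |x| ^ α)
    simp only [abs_neg, neg_zero] at this
    exact this.symm
  rw [this, key p hp]
  ring

theorem enorm_le_eLpNorm_top {f : ℝ → ℂ} (hf : Continuous f) (x₀ : ℝ) :
    ‖f x₀‖ₑ ≤ eLpNorm f ⊤ volume := by
  rw [eLpNorm_exponent_top]
  have h1 : ∀ᵐ y ∂(volume : Measure ℝ), ‖f y‖ₑ ≤ eLpNormEssSup f volume := ae_le_eLpNormEssSup
  have h2 : Dense {y | ‖f y‖ₑ ≤ eLpNormEssSup f volume} := Measure.dense_of_ae h1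
  have h3 : IsClosed {y | ‖f y‖ₑ ≤ eLpNormEssSup f volume} :=
    isClosed_le hf.enorm continuous_const
  have := h2.closure_eq
  rw [h3.closure_eq] at this
  exact (this ▸ mem_univ x₀ : x₀ ∈ {y | ‖f y‖ₑ ≤ eLpNormEssSup f volume})

theorem eLpNorm_one_eq {f : ℝ → ℝ} (hf : Integrable f) :
    eLpNorm f 1 volume = ENNReal.ofReal (∫ x, |f x|) := by
  rw [eLpNorm_one_eq_lintegral_enorm, ← ofReal_integral_norm_eq_lintegral_enorm hf]
  simp

theorem norm_ex (ξ x : ℝ) : ‖ex ξ x‖ = 1 := by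
  have : (-2 * Real.pi * Complex.I * ξ * x : ℂ) = ((-2 * Real.pi * ξ * x : ℝ) : ℂ) * Complex.I := by
    push_cast; ring
  rw [ex, this, Complex.norm_exp_ofReal_mul_I]

theorem ex_add (ξ x y : ℝ) : ex ξ (x + y) = ex ξ x * ex ξ y := by
  simp only [ex, ← Complex.exp_add]; congr 1; push_cast; ring

theorem ex_zero (ξ : ℝ) : ex ξ 0 = 1 := by simp [ex]

theorem ex_nat_mul (ξ x : ℝ) (n : ℕ) : ex ξ (n * x) = ex ξ x ^ n := by
  simp only [ex, ← Complex.exp_nat_mul]; congr 1; push_cast; ring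

/-! ### The value at the indicator -/

theorem chi_eq : chi = ind (Icc (-(1 / 2)) (1 / 2)) := by
  unfold chi ind; norm_num

theorem mul_ft_chi (ξ : ℝ) :
    (-2 * Real.pi * Complex.I) * ((ξ : ℂ) * ft chi ξ) = ex ξ (1 / 2) - ex ξ (-(1 / 2)) := by
  rw [← mul_integral_ex, ← integral_ind_smul_Icc (by norm_num), ← mul_assoc, ft, chi_eq]
  rfl

theorem sup_chi : ENNReal.ofReal (1 / Real.pi) ≤
    eLpNorm (fun ξ : ℝ => (ξ : ℂ) * ft chi ξ) ⊤ volume := by
  have hpi : (-2 * Real.pi * Complex.I : ℂ) ≠ 0 := by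
    simp [Real.pi_ne_zero]
  have h : (fun ξ : ℝ => (ξ : ℂ) * ft chi ξ) =
      fun ξ => (ex ξ (1 / 2) - ex ξ (-(1 / 2))) / (-2 * Real.pi * Complex.I) := by
    funext ξ
    rw [← mul_ft_chi]; field_simp
  have hc : Continuous (fun ξ : ℝ => (ξ : ℂ) * ft chi ξ) := by
    rw [h]; unfold ex; fun_prop
  refine le_trans (le_of_eq ?_) (enorm_le_eLpNorm_top hc (1 / 2))
  rw [← ofReal_norm]
  congr 1
  have h1 : ex (1 / 2) (1 / 2) = -Complex.I := by
    have : (-2 * Real.pi * Complex.I * ((1 / 2 : ℝ) : ℂ) * ((1 / 2 : ℝ) : ℂ) : ℂ) =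
        -(Real.pi / 2 * Complex.I) := by push_cast; ring
    rw [ex, this, Complex.exp_neg, Complex.exp_pi_div_two_mul_I, Complex.inv_I]
  have h2 : ex (1 / 2) (-(1 / 2)) = Complex.I := by
    have : (-2 * Real.pi * Complex.I * ((1 / 2 : ℝ) : ℂ) * ((-(1 / 2) : ℝ) : ℂ) : ℂ) =
        (Real.pi / 2 * Complex.I) := by push_cast; ring
    rw [ex, this, Complex.exp_pi_div_two_mul_I]
  rw [congrFun h (1 / 2), h1, h2]
  have : (-Complex.I - Complex.I) / (-2 * Real.pi * Complex.I) = ((1 / Real.pi : ℝ) : ℂ) := by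
    have := Real.pi_ne_zero
    push_cast; field_simp; ring
  rw [this, Complex.norm_real, Real.norm_of_nonneg (by positivity)]

theorem l1_chi : eLpNorm chi 1 volume = 1 := by
  have hi : Integrable chi := by
    simpa [chi_eq] using integrable_ind_smul_Icc (-(1 / 2)) (1 / 2) (f := fun _ => (1 : ℝ))
      continuous_const
  rw [eLpNorm_one_eq hi]
  have : ∫ x, |chi x| = 1 := by
    have h := integral_ind_smul_Icc (p := -(1 / 2)) (q := 1 / 2) (by norm_num) (fun _ => (1 : ℝ))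
    simp only [smul_eq_mul, mul_one] at h
    simp only [chi_eq, abs_of_nonneg (ind_nonneg _ _), h]
    norm_num
  rw [this]; simp

theorem mom_chi {α : ℝ} (hα : 0 < α) : eLpNorm (fun x : ℝ => |x| ^ α * chi x) 1 volume =
    ENNReal.ofReal (2 * (1 / 2) ^ (α + 1) / (α + 1)) := by
  have hc : Continuous (fun x : ℝ => |x| ^ α) := continuous_abs.rpow_const (fun _ => Or.inr hα.le)
  have hi : Integrable (fun x : ℝ => |x| ^ α * chi x) := by
    simpa [chi_eq, mul_comm] using integrable_ind_smul_Icc (-(1 / 2)) (1 / 2) hc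
  rw [eLpNorm_one_eq hi]
  congr 1
  have h := integral_ind_smul_Icc (p := -(1 / 2)) (q := 1 / 2) (by norm_num)
    (fun x : ℝ => |x| ^ α)
  rw [integral_abs_rpow hα (by norm_num) (by norm_num)] at h
  rw [two_mul, ← h]
  congr 1
  funext x
  rw [abs_of_nonneg (mul_nonneg (by positivity) (by rw [chi_eq]; exact ind_nonneg _ _)), chi_eq,
    smul_eq_mul, mul_comm]

theorem Phi_chi_ge {α : ℝ} (hα : 0 < α) :
    ENNReal.ofReal (1 / Real.pi) ^ α * ENNReal.ofReal (2 * (1 / 2) ^ (α + 1) / (α + 1)) ≤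
      Phi α chi := by
  rw [Phi, l1_chi, mom_chi hα, ENNReal.one_rpow, div_one]
  gcongr
  exact sup_chi

end Pool.Agent.Lib.MP_d6da6d_an
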