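import Mathlib

namespace Pool.Agent.Lib.MP_d6da6d_an

open MeasureTheory
open scoped ENNReal

/-- The Fourier transform `∫ u(x) exp(-2 π i ξ x) dx` of a real function. -/
noncomputable def ft (u : ℝ → ℝ) (ξ : ℝ) : ℂ :=
  ∫ x : ℝ, (u x : ℂ) * Complex.exp (-2 * Real.pi * Complex.I * ξ * x)

/-- The functional `Φ_α(u) = ‖ξ û‖_∞ ^ α * ‖|x| ^ α u‖_1 / ‖u‖_1 ^ (α + 1)`, in `[0, ∞]`. -/
noncomputable def Phi (α : ℝ) (u : ℝ → ℝ) : ℝ≥0∞ :=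
  eLpNorm (fun ξ : ℝ => (ξ : ℂ) * ft u ξ) ⊤ volume ^ α *
    eLpNorm (fun x : ℝ => |x| ^ α * u x) 1 volume / eLpNorm u 1 volume ^ (α + 1)

/-- The indicator function of `[-1/2, 1/2]`. -/
noncomputable def chi : ℝ → ℝ := Set.indicator (Set.Icc (-1 / 2 : ℝ) (1 / 2)) (fun _ => 1)

end Pool.Agent.Lib.MP_d6da6d_an
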