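import Pool.Agent.Lib.MP_d6da6d_an.Basic

namespace Pool.Agent.Lib.MP_d6da6d_an

open MeasureTheory Set
open scoped ENNReal

/-- The weights `1,2,3,4,5,4,3,2,1`. -/
def wt (k : ℕ) : ℝ := 5 - |(k : ℝ) - 4|

/-- The long intervals. -/
def big (h : ℝ) (k : ℕ) : Set ℝ := Icc (-(1 / 2 - (8 - k) * h)) (1 / 2 - k * h)

/-- The smoothed indicator (times 25). -/
noncomputable def gg (h x : ℝ) : ℝ := ∑ k ∈ Finset.range 9, wt k * ind (big h k) x

/-- The counterexample. -/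
noncomputable def uu (h x : ℝ) : ℝ :=
  (gg h x - 26 * ind (Ico 0 h) x + 10 * ind (Ico (2 * h) (4 * h)) x
    + 6 * ind (Ico (4 * h) (5 * h)) x) / 25

theorem wt_pos {k : ℕ} (hk : k ∈ Finset.range 9) : 1 ≤ wt k := by
  have hk' := Finset.mem_range.1 hk
  interval_cases k <;> norm_num [wt]

theorem gg_nonneg (h x : ℝ) : 0 ≤ gg h x :=
  Finset.sum_nonneg fun _ hk => mul_nonneg (le_trans zero_le_one (wt_pos hk)) (ind_nonneg _ _)

theorem gg_center {h x : ℝ} (h0 : 0 < h) (h1 : h < 1 / 30) (hx : x ∈ Ico 0 h) : gg h x = 25 := by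
  have : ∀ k ∈ Finset.range 9, wt k * ind (big h k) x = wt k := by
    intro k hk
    have hk' : (k : ℝ) ≤ 8 := by
      have := Finset.mem_range.1 hk
      exact_mod_cast (by omega : k ≤ 8)
    have hk0 : (0 : ℝ) ≤ k := Nat.cast_nonneg k
    rw [ind_of_mem, mul_one]
    constructor <;> nlinarith [hx.1, hx.2]
  rw [gg, Finset.sum_congr rfl this]
  simp [Finset.sum_range_succ, wt]
  norm_num

theorem gg_pos {h x : ℝ} (h0 : 0 < h) (h1 : h < 1 / 30) (hx : x ∈ Icc (-1 / 2 : ℝ) (1 / 2)) :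
    0 < gg h x := by
  have key : ∀ k ∈ Finset.range 9, x ∈ big h k → 0 < gg h x := by
    intro k hk hxk
    refine lt_of_lt_of_le ?_ (Finset.single_le_sum (f := fun k => wt k * ind (big h k) x)
      (fun _ hk => mul_nonneg (le_trans zero_le_one (wt_pos hk)) (ind_nonneg _ _)) hk)
    show 0 < wt k * ind (big h k) x
    rw [ind_of_mem hxk]
    linarith [wt_pos hk]
  by_cases hx0 : 0 ≤ x
  · refine key 0 (by simp) ?_
    constructor <;> push_cast <;> nlinarith [hx.1, hx.2]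
  · refine key 8 (by simp) ?_
    constructor <;> push_cast <;> nlinarith [hx.1, hx.2]

theorem uu_center {h x : ℝ} (h0 : 0 < h) (h1 : h < 1 / 30) (hx : x ∈ Ico 0 h) :
    uu h x = -1 / 25 := by
  rw [uu, gg_center h0 h1 hx, ind_of_mem hx, ind_of_notMem, ind_of_notMem]
  · norm_num
  · intro hh; linarith [hh.1, hx.2]
  · intro hh; linarith [hh.1, hx.2]

theorem uu_ne_zero {h x : ℝ} (h0 : 0 < h) (h1 : h < 1 / 30) (hx : x ∈ Icc (-1 / 2 : ℝ) (1 / 2)) :
    uu h x ≠ 0 := by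
  by_cases hc : x ∈ Ico 0 h
  · rw [uu_center h0 h1 hc]; norm_num
  · have := gg_pos h0 h1 hx
    have h2 := ind_nonneg (Ico (2 * h) (4 * h)) x
    have h3 := ind_nonneg (Ico (4 * h) (5 * h)) x
    rw [uu, ind_of_notMem hc]
    apply ne_of_gt
    linarith

theorem uu_eq_zero {h x : ℝ} (h0 : 0 < h) (h1 : h < 1 / 30) (hx : x ∉ Icc (-1 / 2 : ℝ) (1 / 2)) :
    uu h x = 0 := by
  have hg : gg h x = 0 := by
    refine Finset.sum_eq_zero fun k hk => ?_
    have hk' : (k : ℝ) ≤ 8 := by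
      have := Finset.mem_range.1 hk
      exact_mod_cast (by omega : k ≤ 8)
    have hk0 : (0 : ℝ) ≤ k := Nat.cast_nonneg k
    rw [ind_of_notMem, mul_zero]
    intro hh
    apply hx
    constructor <;> nlinarith [hh.1, hh.2]
  rw [uu, hg, ind_of_notMem, ind_of_notMem, ind_of_notMem]
  · norm_num
  all_goals
    intro hh
    apply hx
    constructor <;> nlinarith [hh.1, hh.2]

theorem abs_uu {h : ℝ} (h0 : 0 < h) (h1 : h < 1 / 30) (x : ℝ) :
    |uu h x| = uu h x + 2 / 25 * ind (Ico 0 h) x := by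
  by_cases hc : x ∈ Ico 0 h
  · rw [uu_center h0 h1 hc, ind_of_mem hc]; norm_num
  · have := gg_nonneg h x
    have h2 := ind_nonneg (Ico (2 * h) (4 * h)) x
    have h3 := ind_nonneg (Ico (4 * h) (5 * h)) x
    rw [ind_of_notMem hc, mul_zero, add_zero, abs_of_nonneg]
    rw [uu, ind_of_notMem hc]
    linarith

/-- Pairing of `uu` with a continuous function. -/
theorem uu_smul {E : Type*} [NormedAddCommGroup E] [NormedSpace ℝ E] (h : ℝ) (f : ℝ → E) :
    (fun x => uu h x • f x) = fun x => (1 / 25 : ℝ) •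
      ((∑ k ∈ Finset.range 9, wt k • (ind (big h k) x • f x)) - (26 : ℝ) • (ind (Ico 0 h) x • f x)
        + (10 : ℝ) • (ind (Ico (2 * h) (4 * h)) x • f x)
        + (6 : ℝ) • (ind (Ico (4 * h) (5 * h)) x • f x)) := by
  funext x
  simp only [smul_smul, ← Finset.sum_smul, ← sub_smul, ← add_smul]
  congr 1
  rw [uu, gg]; ring

theorem integrable_uu_smul {E : Type*} [NormedAddCommGroup E] [NormedSpace ℝ E] (h : ℝ)
    {f : ℝ → E} (hf : Continuous f) : Integrable (fun x => uu h x • f x) := by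
  rw [uu_smul]
  refine Integrable.smul (1 / 25 : ℝ) (((Integrable.sub (integrable_finsetSum _ fun k _ => ?_)
    ?_).add ?_).add ?_)
  · exact (integrable_ind_smul_Icc _ _ hf).smul (wt k)
  · exact (integrable_ind_smul_Ico _ _ hf).smul (26 : ℝ)
  · exact (integrable_ind_smul_Ico _ _ hf).smul (10 : ℝ)
  · exact (integrable_ind_smul_Ico _ _ hf).smul (6 : ℝ)

theorem integral_uu_smul {E : Type*} [NormedAddCommGroup E] [NormedSpace ℝ E] {h : ℝ}
    (h0 : 0 < h) (h1 : h < 1 / 30) {f : ℝ → E} (hf : Continuous f) :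
    ∫ x, uu h x • f x = (1 / 25 : ℝ) •
      ((∑ k ∈ Finset.range 9, wt k • ∫ x in (-(1 / 2 - (8 - k) * h))..(1 / 2 - k * h), f x)
        - (26 : ℝ) • (∫ x in (0 : ℝ)..h, f x) + (10 : ℝ) • (∫ x in (2 * h)..(4 * h), f x)
        + (6 : ℝ) • (∫ x in (4 * h)..(5 * h), f x)) := by
  have i1 : ∀ k ∈ Finset.range 9, Integrable (fun x => wt k • (ind (big h k) x • f x)) :=
    fun k _ => (integrable_ind_smul_Icc _ _ hf).smul (wt k)
  have i1' := integrable_finsetSum _ i1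
  have i2 : Integrable (fun x => (26 : ℝ) • (ind (Ico 0 h) x • f x)) :=
    (integrable_ind_smul_Ico _ _ hf).smul (26 : ℝ)
  have i3 : Integrable (fun x => (10 : ℝ) • (ind (Ico (2 * h) (4 * h)) x • f x)) :=
    (integrable_ind_smul_Ico _ _ hf).smul (10 : ℝ)
  have i4 : Integrable (fun x => (6 : ℝ) • (ind (Ico (4 * h) (5 * h)) x • f x)) :=
    (integrable_ind_smul_Ico _ _ hf).smul (6 : ℝ)
  have i12 : Integrable (fun x => (∑ k ∈ Finset.range 9, wt k • (ind (big h k) x • f x))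
      - (26 : ℝ) • (ind (Ico 0 h) x • f x)) := i1'.sub i2
  have i123 : Integrable (fun x => (∑ k ∈ Finset.range 9, wt k • (ind (big h k) x • f x))
      - (26 : ℝ) • (ind (Ico 0 h) x • f x)
      + (10 : ℝ) • (ind (Ico (2 * h) (4 * h)) x • f x)) := i12.add i3
  rw [uu_smul, integral_smul, integral_add i123 i4, integral_add i12 i3,
    integral_sub i1' i2, integral_finsetSum _ i1]
  simp only [integral_smul]
  rw [integral_ind_smul_Ico h0.le, integral_ind_smul_Ico (by linarith),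
    integral_ind_smul_Ico (by linarith)]
  congr 4
  refine Finset.sum_congr rfl fun k _ => ?_
  rw [big, integral_ind_smul_Icc (by linarith)]

theorem poly_pos (c : ℝ) :
    0 ≤ 19 - 24 * c + 8 * c ^ 2 + 328 * c ^ 3 + 480 * c ^ 4 + 256 * c ^ 5 + 64 * c ^ 6 := by
  nlinarith [sq_nonneg (8 * c ^ 3 + 16 * c ^ 2 + 8 * c), sq_nonneg (c ^ 2 + c), sq_nonneg (c + 1),
    sq_nonneg (c - 1 / 4), sq_nonneg (8 * c ^ 3 + 16 * c ^ 2 + 6 * c - 2),
    sq_nonneg (c ^ 2 + c / 2 - 1 / 4)]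

theorem norm_bound (z A B : ℂ) (hz : ‖z‖ = 1) (hA : ‖A‖ = 1) (hB : ‖B‖ = 1) :
    ‖(A - B) * (1 + z + z ^ 2 + z ^ 3 + z ^ 4) ^ 2
      + 2 * (1 - z) ^ 2 * (13 + 13 * z + 8 * z ^ 2 + 3 * z ^ 3)‖ ≤ 50 := by
  have hxy : z.im ^ 2 = 1 - z.re ^ 2 := by
    have := Complex.sq_norm z
    rw [hz, Complex.normSq_apply] at this
    linarith
  set c := z.re with hc
  set y := z.im with hy
  have hc1 : -1 ≤ c := by nlinarith [sq_nonneg y]
  have hc2 : c ≤ 1 := by nlinarith [sq_nonneg y]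
  have e1 : ‖1 + z + z ^ 2 + z ^ 3 + z ^ 4‖ ^ 2 = (4 * c ^ 2 + 2 * c - 1) ^ 2 := by
    rw [Complex.sq_norm, Complex.normSq_apply]
    simp only [pow_succ, pow_zero, one_mul, Complex.add_re, Complex.add_im, Complex.mul_re,
      Complex.mul_im, Complex.one_re, Complex.one_im, ← hc, ← hy]
    linear_combination ((1) * c ^ 0 * y ^ 2 + (1) * c ^ 0 * y ^ 6 + (-6) * c ^ 1 * y ^ 0
      + (-2) * c ^ 1 * y ^ 2 + (2) * c ^ 1 * y ^ 4 + (-7) * c ^ 2 * y ^ 0 + (4) * c ^ 2 * y ^ 2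
      + (3) * c ^ 2 * y ^ 4 + (6) * c ^ 3 * y ^ 0 + (4) * c ^ 3 * y ^ 2 + (4) * c ^ 4 * y ^ 0
      + (3) * c ^ 4 * y ^ 2 + (2) * c ^ 5 * y ^ 0 + (1) * c ^ 6 * y ^ 0) * hxy
  have e2 : ‖1 - z‖ ^ 2 = 2 - 2 * c := by
    rw [Complex.sq_norm, Complex.normSq_apply]
    simp only [Complex.sub_re, Complex.sub_im, Complex.one_re, Complex.one_im, ← hc, ← hy]
    linear_combination hxy
  have e3 : ‖13 + 13 * z + 8 * z ^ 2 + 3 * z ^ 3‖ ^ 2 =
      125 + 360 * c + 572 * c ^ 2 + 312 * c ^ 3 := by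
    rw [Complex.sq_norm, Complex.normSq_apply]
    simp only [pow_succ, pow_zero, one_mul, Complex.add_re, Complex.add_im, Complex.mul_re,
      Complex.mul_im, Complex.re_ofNat, Complex.im_ofNat, ← hc, ← hy]
    linear_combination ((-44) * c ^ 0 * y ^ 0 + (-5) * c ^ 0 * y ^ 2 + (9) * c ^ 0 * y ^ 4
      + (22) * c ^ 1 * y ^ 0 + (48) * c ^ 1 * y ^ 2 + (151) * c ^ 2 * y ^ 0 + (18) * c ^ 2 * y ^ 2
      + (48) * c ^ 3 * y ^ 0 + (9) * c ^ 4 * y ^ 0) * hxy
  have e4 : ‖13 + 13 * z + 8 * z ^ 2 + 3 * z ^ 3‖ ≤ 2 * (6 + 7 * c + 8 * c ^ 2 + 4 * c ^ 3) := by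
    have hp : 0 ≤ 2 * (6 + 7 * c + 8 * c ^ 2 + 4 * c ^ 3) := by
      have : 6 + 7 * c + 8 * c ^ 2 + 4 * c ^ 3 = (3 + 2 * c) * (2 + c + 2 * c ^ 2) := by ring
      rw [this]
      have h1 : 0 ≤ 3 + 2 * c := by linarith
      have h2 : 0 ≤ 2 + c + 2 * c ^ 2 := by nlinarith [sq_nonneg c]
      positivity
    refine (pow_le_pow_iff_left₀ (norm_nonneg _) hp two_ne_zero).1 ?_
    rw [e3]
    nlinarith [poly_pos c]
  have e5 : ‖A - B‖ ≤ 2 := by
    have := norm_sub_le A B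
    linarith
  refine (norm_add_le _ _).trans ?_
  rw [norm_mul, norm_mul, norm_mul, norm_pow, norm_pow, e1, e2]
  simp only [Complex.norm_ofNat]
  have f1 : ‖A - B‖ * (4 * c ^ 2 + 2 * c - 1) ^ 2 ≤ 2 * (4 * c ^ 2 + 2 * c - 1) ^ 2 := by gcongr
  have f2 : 2 * (2 - 2 * c) * ‖13 + 13 * z + 8 * z ^ 2 + 3 * z ^ 3‖ ≤
      2 * (2 - 2 * c) * (2 * (6 + 7 * c + 8 * c ^ 2 + 4 * c ^ 3)) := by
    gcongr; linarith
  nlinarith

theorem sup_uu {h : ℝ} (h0 : 0 < h) (h1 : h < 1 / 30) (ξ : ℝ) :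
    ‖(ξ : ℂ) * ft (uu h) ξ‖ ≤ 1 / Real.pi := by
  have hft : ft (uu h) ξ = ∫ x, uu h x • ex ξ x := rfl
  set z := ex ξ h with hz
  set A := ex ξ (1 / 2 - 8 * h) with hA
  set B := ex ξ (-(1 / 2)) with hB
  have hk : ∀ k ∈ Finset.range 9, (-2 * Real.pi * Complex.I * ξ) *
      (wt k • ∫ x in (-(1 / 2 - (8 - k) * h))..(1 / 2 - k * h), ex ξ x) =
      (wt k : ℂ) * ((A - B) * z ^ (8 - k)) := by
    intro k hk
    have hk' : k ≤ 8 := by have := Finset.mem_range.1 hk; omega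
    have hc : ((8 - k : ℕ) : ℝ) = 8 - k := by rw [Nat.cast_sub hk']; norm_num
    rw [mul_smul_comm, mul_integral_ex, Complex.real_smul, sub_mul A B, hA, hB, hz, ← ex_nat_mul,
      ← ex_add, ← ex_add, hc]
    congr 3 <;> ring
  have key : (-2 * Real.pi * Complex.I) * ((ξ : ℂ) * ft (uu h) ξ) = (1 / 25 : ℂ) *
      ((A - B) * (1 + z + z ^ 2 + z ^ 3 + z ^ 4) ^ 2
        + 2 * (1 - z) ^ 2 * (13 + 13 * z + 8 * z ^ 2 + 3 * z ^ 3)) := by
    rw [← mul_assoc, hft, integral_uu_smul h0 h1 (continuous_ex ξ), mul_smul_comm, mul_add, mul_add,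
      mul_sub, Finset.mul_sum, Finset.sum_congr rfl hk, mul_smul_comm, mul_smul_comm, mul_smul_comm,
      mul_integral_ex, mul_integral_ex, mul_integral_ex, ex_zero]
    have e2 : ex ξ (2 * h) = z ^ 2 := by exact_mod_cast ex_nat_mul ξ h 2
    have e4 : ex ξ (4 * h) = z ^ 4 := by exact_mod_cast ex_nat_mul ξ h 4
    have e5 : ex ξ (5 * h) = z ^ 5 := by exact_mod_cast ex_nat_mul ξ h 5
    rw [e2, e4, e5, ← hz]
    simp only [Finset.sum_range_succ, Finset.sum_range_zero, wt, Complex.real_smul]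
    norm_num
    ring
  have hb := norm_bound z A B (norm_ex _ _) (norm_ex _ _) (norm_ex _ _)
  have h2 := congrArg norm key
  rw [norm_mul, norm_mul (1 / 25 : ℂ)] at h2
  have h3 : ‖(-2 * Real.pi * Complex.I : ℂ)‖ = 2 * Real.pi := by
    simp [abs_of_pos Real.pi_pos]
  have h4 : ‖(1 / 25 : ℂ)‖ = 1 / 25 := by simp
  rw [h3, h4] at h2
  rw [le_div_iff₀ Real.pi_pos]
  nlinarith

theorem l1_uu {h : ℝ} (h0 : 0 < h) (h1 : h < 1 / 30) : ∫ x, |uu h x| = 1 - 198 / 25 * h := by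
  have i1 : Integrable (uu h) := by
    simpa using integrable_uu_smul h (f := fun _ => (1 : ℝ)) continuous_const
  have i2 : Integrable (fun x => 2 / 25 * ind (Ico 0 h) x) := by
    simpa using (integrable_ind_smul_Ico 0 h (f := fun _ => (1 : ℝ))
      continuous_const).const_mul (2 / 25)
  have e1 := integral_uu_smul h0 h1 (f := fun _ => (1 : ℝ)) continuous_const
  have e2 := integral_ind_smul_Ico h0.le (fun _ => (1 : ℝ))
  simp only [smul_eq_mul, mul_one, intervalIntegral.integral_const] at e1 e2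
  simp only [abs_uu h0 h1]
  rw [integral_add i1 i2, integral_const_mul, e1, e2]
  simp only [Finset.sum_range_succ, Finset.sum_range_zero, wt]
  norm_num
  ring

/-- The upper bound for the moment. -/
noncomputable def momB (α h : ℝ) : ℝ :=
  (1 / 25 * (∑ k ∈ Finset.range 9, wt k * ((1 / 2 - (8 - k) * h) ^ (α + 1) +
    (1 / 2 - k * h) ^ (α + 1))) + 16 / 25 * (5 * h) ^ (α + 1)) / (α + 1)

theorem mom_uu {α h : ℝ} (hα : 0 < α) (h0 : 0 < h) (h1 : h < 1 / 30) :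
    ∫ x, |(|x| ^ α * uu h x)| ≤ momB α h := by
  have hc : Continuous (fun x : ℝ => |x| ^ α) := continuous_abs.rpow_const (fun _ => Or.inr hα.le)
  have i1 := integrable_uu_smul h hc
  have i2 := (integrable_ind_smul_Ico 0 h hc).const_mul (2 / 25)
  have e0 : (fun x => |(|x| ^ α * uu h x)|) =
      fun x => uu h x • |x| ^ α + 2 / 25 * (ind (Ico 0 h) x • |x| ^ α) := by
    funext x
    rw [abs_mul, abs_uu h0 h1, abs_of_nonneg (by positivity)]
    simp only [smul_eq_mul]; ring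
  rw [e0, integral_add i1 i2, integral_const_mul, integral_uu_smul h0 h1 hc,
    integral_ind_smul_Ico h0.le]
  have hk : ∀ k ∈ Finset.range 9,
      wt k • ∫ x in (-(1 / 2 - (8 - k) * h))..(1 / 2 - k * h), |x| ^ α =
      wt k * ((1 / 2 - (8 - k) * h) ^ (α + 1) + (1 / 2 - k * h) ^ (α + 1)) / (α + 1) := by
    intro k hk
    have hk' : (k : ℝ) ≤ 8 := by
      have := Finset.mem_range.1 hk
      exact_mod_cast (by omega : k ≤ 8)
    have hk0 : (0 : ℝ) ≤ k := Nat.cast_nonneg k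
    rw [integral_abs_rpow hα (by nlinarith) (by nlinarith), smul_eq_mul]
    ring
  rw [Finset.sum_congr rfl hk, ← Finset.sum_div]
  have p0 : 0 ≤ ∫ x in (0 : ℝ)..h, |x| ^ α :=
    intervalIntegral.integral_nonneg h0.le (fun x _ => by positivity)
  have p5 : ∫ x in (0 : ℝ)..(5 * h), |x| ^ α = (5 * h) ^ (α + 1) / (α + 1) := by
    have := integral_abs_rpow hα (p := 0) (q := 5 * h) le_rfl (by linarith)
    rw [neg_zero, Real.zero_rpow (by linarith), zero_add] at this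
    exact this
  have q1 : ∫ x in (2 * h)..(4 * h), |x| ^ α ≤ ∫ x in (0 : ℝ)..(5 * h), |x| ^ α :=
    intervalIntegral.integral_mono_interval (by linarith) (by linarith) (by linarith)
      (Filter.Eventually.of_forall fun x => by positivity) (hc.intervalIntegrable _ _)
  have q2 : ∫ x in (4 * h)..(5 * h), |x| ^ α ≤ ∫ x in (0 : ℝ)..(5 * h), |x| ^ α :=
    intervalIntegral.integral_mono_interval (by linarith) (by linarith) (by linarith)
      (Filter.Eventually.of_forall fun x => by positivity) (hc.intervalIntegrable _ _)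
  rw [p5] at q1 q2
  simp only [smul_eq_mul]
  rw [momB, add_div, mul_div_assoc, mul_div_assoc]
  linarith

theorem exists_h {α : ℝ} (hα : 0 < α) : ∃ h : ℝ, 0 < h ∧ h < 1 / 30 ∧
    momB α h < 2 * (1 / 2) ^ (α + 1) / (α + 1) * (1 - 198 / 25 * h) ^ (α + 1) := by
  set F : ℝ → ℝ := fun h => 2 * (1 / 2) ^ (α + 1) * (1 - 198 / 25 * h) ^ (α + 1) -
    (1 / 25 * (∑ k ∈ Finset.range 9, wt k * ((1 / 2 - (8 - k) * h) ^ (α + 1) +
    (1 / 2 - k * h) ^ (α + 1))) + 16 / 25 * (5 * h) ^ (α + 1)) with hF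
  have hlin : ∀ a b : ℝ, a ≠ 0 ∨ 1 ≤ α + 1 → HasDerivAt (fun h : ℝ => (a - b * h) ^ (α + 1))
      (-b * (α + 1) * a ^ α) 0 := by
    intro a b hab
    have h1 : HasDerivAt (fun h : ℝ => a - b * h) (-b) 0 := by
      simpa using ((hasDerivAt_id (0 : ℝ)).const_mul b).const_sub a
    have := h1.rpow_const (p := α + 1) (by simpa using hab)
    simpa using this
  have h5 : HasDerivAt (fun h : ℝ => (5 * h) ^ (α + 1)) 0 0 := by
    have := hlin 0 (-5) (Or.inr (by linarith))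
    simpa [Real.zero_rpow hα.ne'] using this
  have hD : HasDerivAt F (2 * (1 / 2) ^ (α + 1) * (-(198 / 25) * (α + 1) * 1 ^ α) -
      (1 / 25 * (∑ k ∈ Finset.range 9, wt k * (-(8 - k) * (α + 1) * (1 / 2) ^ α +
        -k * (α + 1) * (1 / 2) ^ α)) + 16 / 25 * 0)) 0 := by
    refine ((hlin 1 _ (Or.inr (by linarith))).const_mul _).sub
      (((HasDerivAt.fun_sum fun k _ => ?_).const_mul _).add (h5.const_mul _))
    exact ((hlin _ _ (Or.inr (by linarith))).add (hlin _ _ (Or.inr (by linarith)))).const_mul _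
  have hval : (2 * (1 / 2) ^ (α + 1) * (-(198 / 25) * (α + 1) * 1 ^ α) -
      (1 / 25 * (∑ k ∈ Finset.range 9, wt k * (-(8 - k) * (α + 1) * (1 / 2) ^ α +
        -k * (α + 1) * (1 / 2) ^ α)) + 16 / 25 * 0) : ℝ) = 2 / 25 * (α + 1) * (1 / 2) ^ α := by
    rw [Real.rpow_add_one (by norm_num), Real.one_rpow]
    simp only [Finset.sum_range_succ, Finset.sum_range_zero, wt]
    norm_num
    ring
  rw [hval] at hD
  have hF0 : F 0 = 0 := by
    simp only [hF, mul_zero, sub_zero, Real.one_rpow, Real.zero_rpow (show α + 1 ≠ 0 by linarith),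
      Finset.sum_range_succ, Finset.sum_range_zero, wt]
    norm_num
    ring
  have hpos : 0 < 2 / 25 * (α + 1) * (1 / 2 : ℝ) ^ α := by positivity
  have ht := (hasDerivAt_iff_tendsto_slope_zero.1 hD).mono_left
    (nhdsWithin_mono _ (fun x (hx : x ∈ Ioi (0 : ℝ)) => (ne_of_gt hx : x ≠ 0)))
  have ev1 := ht.eventually (lt_mem_nhds hpos)
  have ev2 : ∀ᶠ h in nhdsWithin (0 : ℝ) (Ioi 0), h < 1 / 30 :=
    nhdsWithin_le_nhds (gt_mem_nhds (by norm_num))
  obtain ⟨h, hh1, hh2, hh3⟩ := (ev1.and (ev2.and self_mem_nhdsWithin)).exists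
  have hh3' : 0 < h := hh3
  refine ⟨h, hh3', hh2, ?_⟩
  simp only [zero_add, hF0, sub_zero, smul_eq_mul] at hh1
  have hFh : 0 < F h := by
    by_contra hneg
    have := mul_nonpos_of_nonneg_of_nonpos (inv_nonneg.2 hh3'.le) (not_lt.1 hneg)
    linarith
  rw [momB, div_mul_eq_mul_div _ (α + 1), div_lt_div_iff_of_pos_right (by linarith)]
  simp only [hF] at hFh
  linarith

theorem main {α : ℝ} (hα : 0 < α) : ∃ u : ℝ → ℝ, Integrable u ∧ ¬ u =ᵐ[volume] 0 ∧
    (∀ x ∈ Icc (-1 / 2 : ℝ) (1 / 2), u x ≠ 0) ∧ (∀ x ∉ Icc (-1 / 2 : ℝ) (1 / 2), u x = 0) ∧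
    Phi α u < Phi α chi := by
  obtain ⟨h, h0, h1, hlt⟩ := exists_h hα
  have i1 : Integrable (uu h) := by
    simpa using integrable_uu_smul h (f := fun _ => (1 : ℝ)) continuous_const
  have hN : 0 < 1 - 198 / 25 * h := by linarith
  refine ⟨uu h, i1, ?_, fun x hx => uu_ne_zero h0 h1 hx, fun x hx => uu_eq_zero h0 h1 hx, ?_⟩
  · intro hz
    have : ∫ x, |uu h x| = 0 := by
      rw [integral_congr_ae (g := fun _ => (0 : ℝ))]
      · simp
      · filter_upwards [hz] with x hx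
        simp [hx]
    rw [l1_uu h0 h1] at this
    linarith
  refine lt_of_lt_of_le ?_ (Phi_chi_ge hα)
  have hc : Continuous (fun x : ℝ => |x| ^ α) := continuous_abs.rpow_const (fun _ => Or.inr hα.le)
  have i2 : Integrable (fun x : ℝ => |x| ^ α * uu h x) := by
    simpa [mul_comm] using integrable_uu_smul h hc
  have s1 : eLpNorm (fun ξ : ℝ => (ξ : ℂ) * ft (uu h) ξ) ⊤ volume ≤ ENNReal.ofReal (1 / Real.pi) := by
    rw [eLpNorm_exponent_top]
    exact eLpNormEssSup_le_of_ae_bound (Filter.Eventually.of_forall (sup_uu h0 h1))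
  rw [Phi, eLpNorm_one_eq i1, eLpNorm_one_eq i2, l1_uu h0 h1]
  have hpi : 0 < 1 / Real.pi := by have := Real.pi_pos; positivity
  calc _ ≤ ENNReal.ofReal (1 / Real.pi) ^ α * ENNReal.ofReal (momB α h) /
        ENNReal.ofReal (1 - 198 / 25 * h) ^ (α + 1) := by
        gcongr
        exact mom_uu hα h0 h1
    _ < _ := by
        rw [mul_div_assoc, ENNReal.ofReal_rpow_of_pos hN, ← ENNReal.ofReal_div_of_pos (by positivity)]
        refine ENNReal.mul_lt_mul_right ?_ ?_ ?_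
        · rw [ENNReal.ofReal_rpow_of_pos hpi]
          exact (ENNReal.ofReal_pos.2 (by positivity)).ne'
        · rw [ENNReal.ofReal_rpow_of_pos hpi]
          exact ENNReal.ofReal_ne_top
        · rw [ENNReal.ofReal_lt_ofReal_iff (by positivity), div_lt_iff₀ (by positivity)]
          exact hlt

end Pool.Agent.Lib.MP_d6da6d_an
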